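import Pool.Agent.E8helper55.DB.Stm2
import Pool.Agent.E8helper55.DB.Core

/-!
# Restriction to a row (project DB, MP_db4732_co)
-/

set_option autoImplicit false

namespace Pool.Agent.E8helper38.DB

open Finset Module
open Pool.Agent.E8helper55.DB
open Pool.Agent.Results.MP_db4732_co.PolynomialCertificates

variable {n : ℕ}

/-- the part of `B` in the row `x` -/
def row (x : V n) (B : Finset (V (n + n))) : Finset (V n) :=
  univ.filter (fun y : V n => Fin.append x y ∈ B)

theorem mem_row (x y : V n) (B : Finset (V (n + n))) : y ∈ row x B ↔ Fin.append x y ∈ B := by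
  simp [row]

theorem dot_append (m l : V n) (z : V (n + n)) : (Fin.append m l) ⬝ᵥ z =
    m ⬝ᵥ (fun i => z (Fin.castAdd n i)) + l ⬝ᵥ (fun i => z (Fin.natAdd n i)) := by
  simp only [dotProduct, Fin.sum_univ_add, Fin.append_left, Fin.append_right]

theorem fourier_row (x l : V n) (B : Finset (V (n + n))) :
    2 ^ n * S (row x B) l = ∑ m : V n, e (m ⬝ᵥ x) * S B (Fin.append m l) := by
  classical
  have h1 : ∀ m : V n, e (m ⬝ᵥ x) * S B (Fin.append m l) =
      ∑ z ∈ B, e (m ⬝ᵥ (x + fun i => z (Fin.castAdd n i))) *
        e (l ⬝ᵥ (fun i => z (Fin.natAdd n i))) := by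
    intro m
    rw [S_eq, mul_sum]
    refine sum_congr rfl fun z _ => ?_
    rw [dot_append, e_add, dotProduct_add, e_add, mul_assoc]
  rw [sum_congr rfl fun m _ => h1 m, sum_comm]
  have h2 : ∀ z ∈ B, ∑ m : V n, e (m ⬝ᵥ (x + fun i => z (Fin.castAdd n i))) *
        e (l ⬝ᵥ (fun i => z (Fin.natAdd n i))) =
      if x = (fun i => z (Fin.castAdd n i)) then 2 ^ n * e (l ⬝ᵥ (fun i => z (Fin.natAdd n i)))
      else 0 := by
    intro z _
    rw [← sum_mul, sum_e]
    by_cases h : x = (fun i => z (Fin.castAdd n i))
    · rw [if_pos h, ← h, if_pos (vadd_self x)]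
    · rw [if_neg h, if_neg, zero_mul]
      intro h3
      apply h
      have h4 : x + (fun i => z (Fin.castAdd n i)) + (fun i => z (Fin.castAdd n i)) =
          0 + (fun i => z (Fin.castAdd n i)) := by rw [h3]
      rwa [add_assoc, vadd_self, add_zero, zero_add] at h4
  rw [sum_congr rfl h2, ← sum_filter, ← mul_sum]
  congr 1
  rw [S_eq]
  refine sum_bij' (i := fun y _ => Fin.append x y) (j := fun z _ i => z (Fin.natAdd n i))
    ?_ ?_ ?_ ?_ ?_
  · intro y hy
    rw [mem_filter]
    refine ⟨(mem_row x y B).1 hy, ?_⟩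
    funext i
    rw [Fin.append_left]
  · intro z hz
    rw [mem_filter] at hz
    rw [mem_row, hz.2, Fin.append_castAdd_natAdd]
    exact hz.1
  · intro y _
    funext i
    rw [Fin.append_right]
  · intro z hz
    rw [mem_filter] at hz
    rw [hz.2, Fin.append_castAdd_natAdd]
  · intro y _
    congr 2
    funext i
    rw [Fin.append_right]

theorem N_row (x : V n) (B : Finset (V (n + n))) :
    N (row x B) / 2 ^ n ≤ N B / 2 ^ (n + n) := by
  have h1 : 2 ^ n * N (row x B) ≤ N B := by
    have h2 : N B = ∑ l : V n, ∑ m : V n, |S B (Fin.append m l)| := by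
      unfold N
      rw [← (Fin.appendEquiv n n).sum_comp (fun l => |S B l|), Fintype.sum_prod_type, sum_comm]
      rfl
    rw [h2]
    unfold N
    rw [mul_sum]
    refine sum_le_sum fun l _ => ?_
    have h3 : 2 ^ n * |S (row x B) l| = |∑ m : V n, e (m ⬝ᵥ x) * S B (Fin.append m l)| := by
      rw [← fourier_row, abs_mul, abs_of_nonneg (by positivity : (0 : ℝ) ≤ 2 ^ n)]
    rw [h3]
    refine (abs_sum_le_sum_abs _ _).trans (sum_le_sum fun m _ => ?_)
    rw [abs_mul, e_abs, one_mul]
  rw [div_le_div_iff₀ (by positivity) (by positivity), pow_add]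
  calc N (row x B) * (2 ^ n * 2 ^ n) = 2 ^ n * N (row x B) * 2 ^ n := by ring
    _ ≤ N B * 2 ^ n := mul_le_mul_of_nonneg_right h1 (by positivity)

theorem polys_row (D : ℕ) (x : V n) (h : V (n + n) → ZMod 2)
    (hh : h ∈ polys (ZMod 2) (n + n) D) :
    (fun y : V n => h (Fin.append x y)) ∈ polys (ZMod 2) n D := by
  classical
  have key : polys (ZMod 2) (n + n) D ≤ (polys (ZMod 2) n D).comap
      (LinearMap.funLeft (ZMod 2) (ZMod 2) (fun y : V n => (Fin.append x y : V (n + n)))) := by
    unfold polys
    rw [Submodule.span_le]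
    rintro _ ⟨I, hI, rfl⟩
    rw [SetLike.mem_coe, Submodule.mem_comap]
    by_cases hx : ∀ i : Fin n, Fin.castAdd n i ∈ I → x i = 1
    · refine Submodule.subset_span ⟨univ.filter (fun j => Fin.natAdd n j ∈ I), ?_, ?_⟩
      · refine le_trans ?_ hI
        refine card_le_card_of_injOn (fun j => Fin.natAdd n j) (fun j hj => ?_) (fun a _ b _ hab => ?_)
        · exact (mem_filter.1 hj).2
        · exact Fin.natAdd_injective n n hab
      · funext y
        rw [LinearMap.funLeft_apply]
        unfold monomial
        have h1 : (∀ i ∈ I, (Fin.append x y : V (n + n)) i = 1) ↔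
            ∀ j ∈ univ.filter (fun j => Fin.natAdd n j ∈ I), y j = 1 := by
          constructor
          · intro h2 j hj
            have h3 := h2 _ (mem_filter.1 hj).2
            rwa [Fin.append_right] at h3
          · intro h2 i hi
            induction i using Fin.addCases with
            | left i =>
              rw [Fin.append_left]
              exact hx i hi
            | right i =>
              rw [Fin.append_right]
              exact h2 i (mem_filter.2 ⟨mem_univ _, hi⟩)
        by_cases h4 : ∀ i ∈ I, (Fin.append x y : V (n + n)) i = 1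
        · rw [if_pos h4, if_pos (h1.1 h4)]
        · rw [if_neg h4, if_neg (fun h5 => h4 (h1.2 h5))]
    · push Not at hx
      obtain ⟨i, hi, hxi⟩ := hx
      have h0 : LinearMap.funLeft (ZMod 2) (ZMod 2)
          (fun y : V n => (Fin.append x y : V (n + n))) (monomial (ZMod 2) I) = 0 := by
        funext y
        rw [LinearMap.funLeft_apply]
        unfold monomial
        rw [if_neg]
        · rfl
        · intro h2
          apply hxi
          have h3 := h2 _ hi
          rwa [Fin.append_left] at h3
      rw [h0]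
      exact Submodule.zero_mem _
  exact key hh

theorem res_holds : RES := by
  classical
  rintro n D s M x ⟨L, hL, hM⟩
  refine ⟨L.image (row x), ?_, ?_⟩
  · refine le_trans ?_ hL
    refine (sum_image_le_of_nonneg (fun B _ => ?_)).trans (sum_le_sum fun B _ => ?_)
    · have := N_nonneg B
      positivity
    · have h1 := N_row x B
      have h2 : 0 ≤ N (row x B) / 2 ^ n := div_nonneg (N_nonneg _) (by positivity)
      have h3 : 0 ≤ N B / 2 ^ (n + n) := h2.trans h1
      exact mul_le_mul (mul_le_mul_of_nonneg_left h1 (by norm_num)) (by linarith) (by linarith)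
        (by linarith)
  · intro y hy
    obtain ⟨h, hh, h1, h2⟩ := hM (Fin.append x y) hy
    refine ⟨fun y => h (Fin.append x y), polys_row D x h hh, h1, fun y' hy' hB => ?_⟩
    refine h2 (Fin.append x y') hy' fun B hBL => ?_
    have h3 := hB (row x B) (mem_image_of_mem _ hBL)
    rw [mem_row, mem_row] at h3
    exact h3

end Pool.Agent.E8helper38.DB
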